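import Pool.Agent.Lib.MP_9cc147_pr.Cx.H.Tpoi

/-! The weight of an edge. -/

open scoped Classical Topology ENNReal
open MeasureTheory ProbabilityTheory Filter Complex

noncomputable section
namespace Pool.Agent.Lib.MP_9cc147_pr.Cx.W

theorem bl_smooth {B : ℝ} {f : ℝ → ℝ} (h : BL B f) :
    ContDiff ℝ ((⊤ : ℕ∞) : WithTop ℕ∞) f := by
  obtain ⟨μ, γ, h1, h2, h3, h4⟩ := h
  have nb : ∀ (z : ℂ) (R : ℝ), ‖z‖ ≤ R → ∀ s : ℝ, |s| ≤ B → ‖cexp (I * z * s)‖ ≤ Real.exp (R * B) := by
    intro z R hz s hs
    refine (norm_exp_le_exp_norm _).trans (Real.exp_le_exp.2 ?_)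
    rw [norm_mul, norm_mul, norm_I, one_mul, norm_real, Real.norm_eq_abs]
    exact mul_le_mul hz hs (abs_nonneg _) ((norm_nonneg _).trans hz)
  have hd : Differentiable ℂ fun z : ℂ => ∫ s : ℝ, cexp (I * z * s) * γ s ∂μ := fun z => by
    refine (hasDerivAt_integral_of_dominated_loc_of_deriv_le (Metric.ball_mem_nhds z one_pos)
      (F' := fun z (s : ℝ) => cexp (I * z * s) * (I * 1 * s) * γ s)
      (bound := fun s => Real.exp ((‖z‖ + 1) * B) * B * ‖γ s‖)
      (Eventually.of_forall fun z => (Continuous.aestronglyMeasurable (by fun_prop)).mul h2.1)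
      (h2.bdd_mul (c := Real.exp (‖z‖ * B)) (Continuous.aestronglyMeasurable (by fun_prop))
        (h3.mono (nb z _ le_rfl)))
      ((Continuous.aestronglyMeasurable (by fun_prop)).mul h2.1) ?_ (h2.norm.const_mul _)
      (Eventually.of_forall fun s x _ => ?_)).2.differentiableAt
    · filter_upwards [h3] with s hs x hx
      rw [norm_mul, norm_mul, mul_one, norm_mul, norm_I, one_mul, norm_real, Real.norm_eq_abs]
      refine mul_le_mul_of_nonneg_right (mul_le_mul (nb x _ ?_ s hs) hs (abs_nonneg _)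
        (Real.exp_pos _).le) (norm_nonneg _)
      linarith [norm_sub_norm_le x z, mem_ball_iff_norm.1 hx]
    · exact ((((hasDerivAt_id x).const_mul I).mul_const (s : ℂ)).cexp).mul_const _
  have e : f = fun x : ℝ => reCLM (∫ s : ℝ, cexp (I * (ofRealCLM x) * s) * γ s ∂μ) := by
    funext x
    rw [ofRealCLM_apply, ← h4, reCLM_apply, ofReal_re]
  rw [e]
  exact reCLM.contDiff.comp ((hd.contDiff.restrict_scalars ℝ).comp ofRealCLM.contDiff)

/-- moment of the exponential of a square root -/
def Tm (c : ℝ) (μ : Measure ℝ) : Prop := Integrable (fun y => Real.exp (c * √|y|)) μ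

theorem Tm.conv {c : ℝ} (hc : 0 ≤ c) {μ ν : Measure ℝ} [SFinite μ] [SFinite ν] (h : Tm c μ)
    (h' : Tm c ν) : Tm c (μ.conv ν) := by
  unfold Tm Measure.conv
  rw [integrable_map_measure (Continuous.aestronglyMeasurable (by fun_prop)) (by fun_prop)]
  refine (h.mul_prod h').mono' (Continuous.aestronglyMeasurable (by fun_prop))
    (Eventually.of_forall fun y => ?_)
  have := H.sqrt_tri (y.1 + y.2) y.1
  rw [sub_add_cancel_left, abs_neg] at this
  simp only [Function.comp, Real.norm_eq_abs, Real.abs_exp, ← Real.exp_add, Real.exp_le_exp,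
    ← mul_add]
  exact mul_le_mul_of_nonneg_left this hc

theorem sqrt_le (u : ℝ) : √|u| ≤ 1 + |u| := by
  rw [Real.sqrt_le_left (by positivity)]
  nlinarith [abs_nonneg u]

theorem tm_gauss {c : ℝ} (hc : 0 ≤ c) (m : ℝ) (v : NNReal) : Tm c (gaussianReal m v) := by
  refine ((integrable_exp_mul_abs (X := id) (integrable_exp_mul_gaussianReal c)
    (integrable_exp_mul_gaussianReal (-c))).const_mul (Real.exp c)).mono'
    (Continuous.aestronglyMeasurable (by fun_prop)) (Eventually.of_forall fun y => ?_)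
  simp only [Real.norm_eq_abs, Real.abs_exp, ← Real.exp_add, Real.exp_le_exp, id]
  nlinarith [sqrt_le y]

variable {o : Mod}

def be (o : Mod) : Measure ℝ := volume.withDensity fun x => ENNReal.ofReal (o.hB x)

theorem hB_cont (h : IsH o.h) : Continuous o.hB := by
  have := h.cont
  unfold Mod.hB
  fun_prop

theorem hB_nonneg (h : IsH o.h) (hB : 0 < o.Bw) (x : ℝ) : 0 ≤ o.hB x :=
  mul_nonneg hB.le (h.nonneg _)

theorem hB_one (h : IsH o.h) (hB : 0 < o.Bw) : ∫ x, o.hB x = 1 := by
  unfold Mod.hB
  rw [integral_const_mul, Measure.integral_comp_mul_left, h.one, abs_of_pos (inv_pos.2 hB),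
    smul_eq_mul, mul_one, mul_inv_cancel₀ hB.ne']

theorem hB_int (h : IsH o.h) (hB : 0 < o.Bw) : Integrable o.hB :=
  Integrable.of_integral_ne_zero (by rw [hB_one h hB]; exact one_ne_zero)

theorem be_prob (h : IsH o.h) (hB : 0 < o.Bw) : IsProbabilityMeasure (be o) := by
  constructor
  rw [be, withDensity_apply _ MeasurableSet.univ, Measure.restrict_univ,
    ← ofReal_integral_eq_lintegral_ofReal (hB_int h hB) (Eventually.of_forall (hB_nonneg h hB)),
    hB_one h hB, ENNReal.ofReal_one]

theorem be_tm (h : IsH o.h) (hB : 0 < o.Bw) : ∃ c, 0 < c ∧ Tm c (be o) := by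
  obtain ⟨c, K, hc, hK⟩ := h.tail
  have hp : 0 < c * √o.Bw / 2 := by positivity
  refine ⟨_, hp, ?_⟩
  have hc' := hB_cont h
  rw [Tm, be, integrable_withDensity_iff_integrable_smul' hc'.measurable.ennreal_ofReal (by simp)]
  simp only [ENNReal.toReal_ofReal (hB_nonneg h hB _), smul_eq_mul]
  refine ((H.int_tail hp).const_mul (o.Bw * K)).mono'
    (Continuous.aestronglyMeasurable (by fun_prop)) (Eventually.of_forall fun x => ?_)
  rw [Real.norm_eq_abs, abs_of_nonneg (mul_nonneg (hB_nonneg h hB x) (Real.exp_pos _).le), Mod.hB]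
  refine (mul_le_mul_of_nonneg_right (mul_le_mul_of_nonneg_left (hK _) hB.le)
    (Real.exp_pos _).le).trans (le_of_eq ?_)
  rw [abs_mul, abs_of_pos hB, Real.sqrt_mul hB.le, mul_assoc, mul_assoc, mul_assoc, ← Real.exp_add]
  congr 3
  ring

theorem be_char (h : IsH o.h) (hB : 0 < o.Bw) (y : ℝ) :
    charFun (be o) y = ∫ x, o.hB x * cexp (I * x * y) := by
  rw [charFun_apply_real, be, integral_withDensity_eq_integral_toReal_smul
    (hB_cont h).measurable.ennreal_ofReal (by simp)]
  congr 1 with x
  rw [ENNReal.toReal_ofReal (hB_nonneg h hB _), real_smul]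
  congr 2
  ring

theorem xw_nonneg (hr : (o.a, o.x1) ∈ rect) (w : Gp o.R) : 0 ≤ o.xw w := by
  obtain ⟨⟨h0, -⟩, h2, h3⟩ := hr
  simp only at h0 h2 h3
  unfold Mod.xw
  split_ifs
  · refine Real.rpow_nonneg ?_ _
    have : o.x1 ^ 4 ≤ (9 / 10) ^ 4 := pow_le_pow_left₀ (by linarith) h3 4
    linarith [Real.add_one_le_exp o.a]
  · linarith
  · norm_num

theorem neg_Wl {R : ℕ} {w : Gp R} (h : w ∈ Wl R) : -w ∈ Wl R := by
  have : ∀ k, w ∈ Wk R k → -w ∈ Wk R k := fun k hk => by
    obtain ⟨h1, h2⟩ := Finset.mem_filter.1 hk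
    refine Finset.mem_filter.2 ⟨Fintype.mem_piFinset.2 fun i => ?_, by simpa [nrm] using h2⟩
    have := Finset.mem_Icc.1 (Fintype.mem_piFinset.1 h1 i)
    rw [Finset.mem_Icc, Pi.neg_apply]
    omega
  exact Finset.mem_union.2 ((Finset.mem_union.1 h).imp (this _) (this _))

theorem nuh_char (ν : Measure ℝ) (y : ℝ) : nuh ν y = charFun ν y := by
  rw [charFun_apply_real, nuh]
  congr 2 with x
  ring

end Pool.Agent.Lib.MP_9cc147_pr.Cx.W

namespace Pool.Agent.Lib.MP_9cc147_pr.Cx
open W

theorem t_w : S_w := by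
  intro o h hη hB hr
  have := be_prob h hB
  have e : o.nu = ∑ w ∈ Wl o.R, ENNReal.ofReal (o.xw w) •
    (((gaussianReal (o.H w) (o.eta w).toNNReal).conv (be o)).conv (be o)) := rfl
  have hu : o.nu Set.univ = ∑ w ∈ Wl o.R, ENNReal.ofReal (o.xw w) := by
    simp [e]
  have hf : IsFiniteMeasure o.nu := ⟨by rw [hu]; exact ENNReal.sum_lt_top.2 fun _ _ => by simp⟩
  have hη' : ∀ w, 0 ≤ o.eta w := fun w => by unfold Mod.eta; split_ifs <;> positivity
  have hch : ∀ y : ℝ, nuh o.nu y = ∑ w ∈ Wl o.R, o.xw w *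
      cexp (I * o.H w * y - o.eta w * y ^ 2 / 2) * (∫ x, o.hB x * cexp (I * x * y)) ^ 2 := by
    intro y
    have hi : ∀ (μ : Measure ℝ) [IsFiniteMeasure μ], Integrable (fun x : ℝ => cexp (I * x * y)) μ :=
      fun μ _ => (integrable_const 1).mono' (Continuous.aestronglyMeasurable (by fun_prop))
        (Eventually.of_forall fun x => (H.norm_e x y).le)
    rw [nuh, e, integral_finsetSum_measure fun w _ => (hi _).smul_measure ENNReal.ofReal_ne_top]
    refine Finset.sum_congr rfl fun w _ => ?_
    rw [integral_smul_measure, ENNReal.toReal_ofReal (xw_nonneg hr w), real_smul, mul_assoc (o.xw w : ℂ)]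
    congr 1
    refine (nuh_char _ y).trans ?_
    rw [charFun_conv, charFun_conv, be_char h hB, charFun_gaussianReal, Real.coe_toNNReal _ (hη' w),
      mul_assoc _ (∫ x, _), ← sq]
    congr 2
    ring
  have hsym : o.nu.map (fun x => -x) = o.nu := by
    refine Measure.ext_of_charFun (funext fun y => ?_)
    have e1 := charFun_map_mul (μ := o.nu) (-1) y
    simp only [neg_mul, one_mul] at e1
    rw [e1, ← nuh_char, ← nuh_char, hch, hch]
    have e2 : ∫ x : ℝ, o.hB x * cexp (I * x * (-y : ℝ)) = ∫ x : ℝ, o.hB x * cexp (I * x * y) := by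
      rw [← integral_neg_eq_self]
      congr 1 with x
      simp [Mod.hB, h.even]
    rw [e2]
    refine Finset.sum_nbij' (fun w => -w) (fun w => -w) (fun _ => neg_Wl) (fun _ => neg_Wl)
      (fun _ _ => neg_neg _) (fun _ _ => neg_neg _) fun w _ => ?_
    have g1 : isG (-w) ↔ isG w := by simp [isG]
    have g2 : o.xw (-w) = o.xw w := by simp only [Mod.xw, g1, Pi.neg_apply, ne_eq, neg_eq_zero]
    have g3 : o.eta (-w) = o.eta w := by simp only [Mod.eta, g1]
    have g4 : o.H (-w) = -o.H w := by simp [Mod.H]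
    simp only [g2, g3, g4]
    push_cast
    ring_nf
  have hg : ∀ x : ℝ, Integrable (fun y => Real.exp (-(x - y) ^ 2 / 2)) o.nu := fun x =>
    (integrable_const 1).mono' (Continuous.aestronglyMeasurable (by fun_prop))
      (Eventually.of_forall fun y => by
        rw [Real.norm_eq_abs, Real.abs_exp, Real.exp_le_one_iff]; linarith [sq_nonneg (x - y)])
  have hpos : ∀ x, 0 < wN o.nu x := fun x => by
    rw [wN, integral_pos_iff_support_of_nonneg (fun _ => (Real.exp_pos _).le) (hg x),
      show Function.support (fun y => Real.exp (-(x - y) ^ 2 / 2)) = Set.univ from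
        Set.eq_univ_of_forall fun _ => (Real.exp_pos _).ne', hu]
    refine lt_of_lt_of_le ?_ (Finset.single_le_sum (fun _ _ => zero_le) (a := 0) ?_)
    · simp [Mod.xw, isG]
    · simp [Wl, Wk, nrm]
  have hbl : ∃ B, BL B (wN o.nu) := by
    obtain ⟨B, hb⟩ := h.bl
    have hb' := (H.BG.const o.Bw).mul ((H.BG.of_BL hb).aff o.Bw 0)
    simp only [add_zero, zero_add, ← ofReal_mul] at hb'
    set B' := |o.Bw| * B with hB'
    have hc : Continuous fun s : ℝ => charFun o.nu (-s) := continuous_charFun.comp continuous_neg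
    refine ⟨B', (gaussianReal 0 1).restrict (Set.Icc (-B') B'), fun s => charFun o.nu (-s),
      inferInstance, (integrable_const _).mono' hc.aestronglyMeasurable
        (Eventually.of_forall fun s => norm_charFun_le _), ?_, fun x => ?_⟩
    · filter_upwards [ae_restrict_mem measurableSet_Icc] with s hs
      exact abs_le.2 hs
    · rw [setIntegral_eq_integral_of_forall_compl_eq_zero fun s hs => ?_]
      · simp_rw [← nuh_char, nuh, ← integral_const_mul]
        rw [integral_integral_swap ((integrable_const 1).mono'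
          (Continuous.aestronglyMeasurable (by unfold Function.uncurry; fun_prop))
          (Eventually.of_forall fun z => by
            simp only [Function.uncurry]
            rw [norm_mul, H.norm_e, H.norm_e, one_mul])), wN, ← integral_complex_ofReal]
        congr 1 with y
        have := charFun_gaussianReal (μ := 0) (v := 1) (x - y)
        rw [charFun_apply_real] at this
        rw [ofReal_exp]
        convert this.symm using 2
        · push_cast; simp; ring
        · funext s
          rw [← Complex.exp_add]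
          congr 1
          push_cast
          ring
      · have := hb'.van (hB_int h hB).ofReal (ξ := -s) (by
          rw [abs_neg]
          by_contra h2
          exact hs (abs_le.1 (not_lt.1 h2)))
        simp_rw [mul_comm (cexp _)] at this
        simp only [← nuh_char, hch, Mod.hB, this]
        simp
  have htail : ∃ c K : ℝ, 0 < c ∧ ∀ x, wN o.nu x ≤ K * Real.exp (-c * √|x|) := by
    obtain ⟨c, hc, ht⟩ := be_tm h hB
    have hm : Tm c o.nu := by
      rw [Tm, e, integrable_finsetSum_measure]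
      exact fun w _ => (((tm_gauss hc.le _ _).conv hc.le ht).conv hc.le ht).smul_measure
        ENNReal.ofReal_ne_top
    refine ⟨c, Real.exp (c + c ^ 2 / 2) * ∫ y, Real.exp (c * √|y|) ∂o.nu, hc, fun x => ?_⟩
    rw [mul_right_comm, ← integral_const_mul]
    refine integral_mono (hg x) (hm.const_mul _) fun y => ?_
    simp only [← Real.exp_add, Real.exp_le_exp]
    have a1 := mul_le_mul_of_nonneg_left (H.sqrt_tri x y) hc.le
    have a2 := mul_le_mul_of_nonneg_left (sqrt_le (y - x)) hc.le
    nlinarith [sq_nonneg (|y - x| - c), sq_abs (y - x)]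
  refine ⟨hf, hpos, ((bl_smooth hbl.choose_spec).log fun x => (hpos x).ne').neg, fun x => ?_, hsym,
    ?_, hbl, htail, hch⟩
  · conv_lhs => rw [wN, ← hsym,
      integral_map (by fun_prop) (Continuous.aestronglyMeasurable (by fun_prop))]
    rw [wN]
    congr 1 with y
    ring_nf
  · obtain ⟨c, K, hc, hK⟩ := htail
    have hK0 : 0 < K := by simpa using (hpos 0).trans_le (hK 0)
    have t1 := tendsto_rpow_atTop (by norm_num : (0 : ℝ) < 1 / 4)
    refine tendsto_atTop_mono' _ ?_ ((t1.const_mul_atTop hc).atTop_add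
      (t1.const_div_atTop (-Real.log K)))
    filter_upwards [eventually_gt_atTop (0 : ℝ)] with x hx
    have a1 := Real.log_le_log (hpos x) (hK x)
    rw [Real.log_mul hK0.ne' (Real.exp_pos _).ne', Real.log_exp, abs_of_pos hx, Real.sqrt_eq_rpow,
      show (1 / 2 : ℝ) = 1 / 4 + 1 / 4 by norm_num, Real.rpow_add hx] at a1
    have a2 : 0 < x ^ (1 / 4 : ℝ) := Real.rpow_pos_of_pos hx _
    rw [le_div_iff₀ a2, add_mul, div_mul_cancel₀ _ a2.ne']
    linarith

end Pool.Agent.Lib.MP_9cc147_pr.Cx
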